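import Pool.Agent.Helper21.FX.StF

set_option autoImplicit false

namespace Pool.Agent.Helper87.FX

open Pool.Agent.Helper72.FX Pool.Agent.Helper21.FX

theorem sub_ev_mem {n : ℕ} (J : Ideal (MvPolynomial (Fin n) ℂ))
    (φ : MvPolynomial (Fin n) ℂ →ₐ[ℂ] MvPolynomial (Fin n) ℂ)
    (h : ∀ i, MvPolynomial.X i - φ (MvPolynomial.X i) ∈ J) (f : MvPolynomial (Fin n) ℂ) :
    f - φ f ∈ J := by
  induction f using MvPolynomial.induction_on with
  | C a =>
    have : φ (MvPolynomial.C a) = MvPolynomial.C a := by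
      rw [← MvPolynomial.algebraMap_eq, AlgHom.commutes]
    rw [this, sub_self]; exact J.zero_mem
  | add p q hp hq =>
    rw [map_add]
    have : p + q - (φ p + φ q) = (p - φ p) + (q - φ q) := by ring
    rw [this]; exact J.add_mem hp hq
  | mul_X p i hp =>
    rw [map_mul]
    have : p * MvPolynomial.X i - φ p * φ (MvPolynomial.X i) =
        MvPolynomial.X i * (p - φ p) + φ p * (MvPolynomial.X i - φ (MvPolynomial.X i)) := by ring
    rw [this]; exact J.add_mem (J.mul_mem_left _ hp) (J.mul_mem_left _ (h i))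

noncomputable def ph1 : P0 →ₐ[ℂ] P0 :=
  MvPolynomial.aeval (fun i => if i = 3 then s0 else MvPolynomial.X i)

noncomputable def ph2 : P0 →ₐ[ℂ] P0 :=
  MvPolynomial.aeval (fun i => if i = 3 then 0 else if i = 5 then 0 else MvPolynomial.X i)

theorem ph1_X (i : Fin 10) : ph1 (MvPolynomial.X i) = if i = 3 then s0 else MvPolynomial.X i := by
  simp [ph1]

theorem ph2_X (i : Fin 10) :
    ph2 (MvPolynomial.X i) = if i = 3 then 0 else if i = 5 then 0 else MvPolynomial.X i := by
  simp [ph2]

theorem nu_ne : nu a0 b0 t0 ≠ 0 := by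
  intro h
  have h1 := congrArg (MvPolynomial.eval (fun i : Fin 10 => if i = 1 then (1 : ℂ) else 0)) h
  simp [nu, a0, b0, t0] at h1

theorem hF3 : StF3 := by
  intro hD3 y hy
  have h1 : ∀ f : P0, ph1 f = 0 → f ∈ Ideal.span {s0 - r0} := by
    intro f hf
    have := sub_ev_mem (Ideal.span {s0 - r0}) ph1 (fun i => ?_) f
    · rwa [hf, sub_zero] at this
    · rw [ph1_X]
      split_ifs with hi
      · subst hi
        have : (MvPolynomial.X 3 : P0) - s0 = (-1) * (s0 - r0) := by
          show r0 - s0 = _; ring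
        rw [this]
        exact Ideal.mul_mem_left _ _ (Ideal.subset_span rfl)
      · rw [sub_self]; exact Ideal.zero_mem _
  have h2 : ∀ f : P0, ph2 f = 0 → f ∈ Ideal.span {s0 - r0} ⊔ Ideal.span {s0} := by
    intro f hf
    have := sub_ev_mem (Ideal.span {s0 - r0} ⊔ Ideal.span {s0}) ph2 (fun i => ?_) f
    · rwa [hf, sub_zero] at this
    · rw [ph2_X]
      split_ifs with hi hi'
      · subst hi
        have : (MvPolynomial.X 3 : P0) - 0 = (-1) * (s0 - r0) + s0 := by
          show r0 - 0 = _; ring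
        rw [this]
        exact Submodule.add_mem_sup (Ideal.mul_mem_left _ _ (Ideal.subset_span rfl))
          (Ideal.subset_span rfl)
      · subst hi'
        rw [sub_zero]
        exact Ideal.mem_sup_right (Ideal.subset_span rfl)
      · rw [sub_self]; exact Ideal.zero_mem _
  have k1 : ph1 (s0 - r0) = 0 := by
    have e1 : ph1 s0 = s0 := by
      have := ph1_X 5; simpa [s0] using this
    have e2 : ph1 r0 = s0 := by
      have := ph1_X 3; simpa [r0] using this
    rw [map_sub, e1, e2, sub_self]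
  have k1s : ph1 s0 = s0 := by
    have := ph1_X 5; simpa [s0] using this
  have k2 : ph2 s0 = 0 ∧ ph2 r0 = 0 := by
    constructor
    · have := ph2_X 5; simpa [s0] using this
    · have := ph2_X 3; simpa [r0] using this
  have k3 : ph2 E10 = nu a0 b0 t0 := by
    have ea : ph2 a0 = a0 := by have := ph2_X 0; simpa [a0] using this
    have eb : ph2 b0 = b0 := by have := ph2_X 1; simpa [b0] using this
    have et : ph2 t0 = t0 := by have := ph2_X 2; simpa [t0] using this
    have hn : ph2 (nu a0 b0 t0) = nu a0 b0 t0 := by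
      simp only [nu, map_sub, map_add, map_mul, map_pow, map_ofNat, ea, eb, et]
    have : E10 = nu a0 b0 t0 - r0 * n0 - s0 * m0 := rfl
    rw [this, map_sub, map_sub, map_mul, map_mul, k2.1, k2.2, hn]
    ring
  have s0ne : s0 ≠ 0 := MvPolynomial.X_ne_zero _
  -- first swap
  have w1 : ∀ y, s0 * y ∈ Ideal.span {s0 - r0} → y ∈ Ideal.span {s0 - r0} := by
    intro y hy
    obtain ⟨z, hz⟩ := Ideal.mem_span_singleton'.1 hy
    have h3 := congrArg ph1 hz
    rw [map_mul, map_mul, k1, mul_zero, k1s] at h3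
    exact h1 y ((mul_eq_zero.1 h3.symm).resolve_left s0ne)
  have w2 : ∀ y, E10 * y ∈ Ideal.span {s0 - r0} ⊔ Ideal.span {s0} →
      y ∈ Ideal.span {s0 - r0} ⊔ Ideal.span {s0} := by
    intro y hy
    obtain ⟨u, hu, v, hv, huv⟩ := Submodule.mem_sup.1 hy
    obtain ⟨u', rfl⟩ := Ideal.mem_span_singleton'.1 hu
    obtain ⟨v', rfl⟩ := Ideal.mem_span_singleton'.1 hv
    have h3 := congrArg ph2 huv
    rw [map_add, map_mul, map_mul, map_mul, map_sub, k2.1, k2.2, k3, sub_zero, mul_zero, mul_zero,
      add_zero] at h3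
    exact h2 y ((mul_eq_zero.1 h3.symm).resolve_left nu_ne)
  have w3 := swp _ s0 E10 w1 w2
  have e3 : Ideal.span {s0 - r0} ⊔ Ideal.span {E10} ⊔ Ideal.span {s0} =
      Ideal.span {nu a0 b0 t0, r0, s0} := by
    have hE : E10 = nu a0 b0 t0 - r0 * n0 - s0 * m0 := rfl
    apply le_antisymm
    · refine sup_le (sup_le ?_ ?_) ?_
      · rw [Ideal.span_singleton_le_iff_mem]
        exact Ideal.sub_mem _ (Ideal.subset_span (by simp)) (Ideal.subset_span (by simp))
      · rw [Ideal.span_singleton_le_iff_mem, hE]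
        exact Ideal.sub_mem _ (Ideal.sub_mem _ (Ideal.subset_span (by simp))
          (Ideal.mul_mem_right _ _ (Ideal.subset_span (by simp))))
          (Ideal.mul_mem_right _ _ (Ideal.subset_span (by simp)))
      · rw [Ideal.span_singleton_le_iff_mem]
        exact Ideal.subset_span (by simp)
    · rw [Ideal.span_le]
      have m1 : s0 - r0 ∈ Ideal.span {s0 - r0} ⊔ Ideal.span {E10} ⊔ Ideal.span {s0} :=
        Ideal.mem_sup_left (Ideal.mem_sup_left (Ideal.subset_span rfl))
      have m2 : E10 ∈ Ideal.span {s0 - r0} ⊔ Ideal.span {E10} ⊔ Ideal.span {s0} :=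
        Ideal.mem_sup_left (Ideal.mem_sup_right (Ideal.subset_span rfl))
      have m3 : s0 ∈ Ideal.span {s0 - r0} ⊔ Ideal.span {E10} ⊔ Ideal.span {s0} :=
        Ideal.mem_sup_right (Ideal.subset_span rfl)
      have m4 : r0 ∈ Ideal.span {s0 - r0} ⊔ Ideal.span {E10} ⊔ Ideal.span {s0} := by
        have := Ideal.sub_mem _ m3 m1
        have e : s0 - (s0 - r0) = r0 := by ring
        rwa [e] at this
      intro x hx
      simp only [Set.mem_insert_iff, Set.mem_singleton_iff] at hx
      rcases hx with rfl | rfl | rfl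
      · have : nu a0 b0 t0 = E10 + r0 * n0 + s0 * m0 := by rw [hE]; ring
        rw [this]
        exact Ideal.add_mem _ (Ideal.add_mem _ m2 (Ideal.mul_mem_right _ _ m4))
          (Ideal.mul_mem_right _ _ m3)
      · exact m4
      · exact m3
  have w4 : ∀ y, E20 * y ∈ Ideal.span {s0 - r0} ⊔ Ideal.span {E10} ⊔ Ideal.span {s0} →
      y ∈ Ideal.span {s0 - r0} ⊔ Ideal.span {E10} ⊔ Ideal.span {s0} := by
    intro y hy
    rw [e3] at hy ⊢
    exact hD3 y hy
  have w5 := swp _ s0 E20 w3 w4
  have e4 : Ideal.span {E10, E20, s0 - r0} =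
      Ideal.span {s0 - r0} ⊔ Ideal.span {E10} ⊔ Ideal.span {E20} := by
    rw [Ideal.span_insert, Ideal.span_insert]
    rw [sup_comm (Ideal.span {E20}) _, ← sup_assoc, sup_comm (Ideal.span {E10})]
  rw [e4] at hy ⊢
  exact w5 y hy

end Pool.Agent.Helper87.FX
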