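import Pool.Agent.Helper41.FX.StK2

set_option autoImplicit false

namespace Pool.Agent.Helper87.FX

open Polynomial Pool.Agent.Helper72.FX Pool.Agent.Helper72.KRF Pool.Agent.Helper41.FX

theorem hTK : StSNK → StDQ → StRES → StEXT → StPMX → StNPX → StNPI → StNPZ → StHOM → StZT → StZP →
    StC7 → StTK := by
  intro hSNK hDQ hRES hEXT hPMX hNPX hNPI hNPZ hHOM hZT hZP hC7 k
  refine ⟨fun e => ?_⟩
  have hI := hNPI hRES hNPX hEXT hDQ hSNK hPMX
  have : IsNoetherianRing (QR (UVP FP)) := by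
    unfold QR; infer_instance
  have h1 : NP (MvPolynomial (Fin 2 ⊕ Fin 12) (QR (UVP FP))) := hI.2 _ _ hC7
  have h2 : NP (MvPolynomial (Fin k) ℂ) := hI.1 _ _ e.toRingEquiv h1
  exact hNPZ _ ((hZP hHOM hPMX hZT).1 k) h2

end Pool.Agent.Helper87.FX
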