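import Pool.Agent.Helper87.FX.StB

/-!
# Project FX (MP_3bffab_ag), chapter S, part C: the suspension `UV = F(z)`

The ambient space is `AV n = ℂ × ℂ × (Fin n → ℂ)` with the points `(U, V, z)`.

Every module proves `theorem hXXX : ... → StXXX` (the statements named in the docstring as hypotheses; further statements of
these files may be added as hypotheses).
-/

set_option autoImplicit false

namespace Pool.Agent.Helper87.FX

open Set Topology Metric Filter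
open scoped ContDiff

section defs

variable {n : ℕ}

/-- the ambient space of the points `(U, V, z)` -/
abbrev AV (n : ℕ) : Type := ℂ × ℂ × (Fin n → ℂ)

/-- the equation `UV - F(z)` -/
noncomputable def Pq (F : MvPolynomial (Fin n) ℂ) (y : AV n) : ℂ :=
  y.1 * y.2.1 - MvPolynomial.eval y.2.2 F

/-- the hypersurface `UV = F(z)` -/
def YC (F : MvPolynomial (Fin n) ℂ) : Set (AV n) := {y | Pq F y = 0}

/-- the value of the `j`-th derivative of `F` at `z` -/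
noncomputable def dj (F : MvPolynomial (Fin n) ℂ) (z : Fin n → ℂ) (j : Fin n) : ℂ :=
  MvPolynomial.eval z (MvPolynomial.pderiv j F)

/-- the point `z + w e_j` -/
def mv (z : Fin n → ℂ) (j : Fin n) (w : ℂ) : Fin n → ℂ := z + Pi.single j w

/-- difference quotients of `F` -/
structure HH (F : MvPolynomial (Fin n) ℂ) (H : Fin n → (Fin n → ℂ) → ℂ → ℂ) : Prop where
  sm : ∀ j, ContDiff ℝ ∞ (fun q : (Fin n → ℂ) × ℂ => H j q.1 q.2)
  eq : ∀ j z w, MvPolynomial.eval (mv z j w) F = MvPolynomial.eval z F + w * H j z w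
  zero : ∀ j z, H j z 0 = dj F z j
  sym : ∀ j z w, H j (mv z j w) (-w) = H j z w

/-- the flow with the velocity `(0, F_j, U e_j)` -/
def El (H : Fin n → (Fin n → ℂ) → ℂ → ℂ) (j : Fin n) (c : ℂ) (y : AV n) : AV n :=
  (y.1, y.2.1 + c * H j y.2.2 (c * y.1), mv y.2.2 j (c * y.1))

/-- the flow with the velocity `(F_j, 0, V e_j)` -/
def Er (H : Fin n → (Fin n → ℂ) → ℂ → ℂ) (j : Fin n) (c : ℂ) (y : AV n) : AV n :=
  (y.1 + c * H j y.2.2 (c * y.2.1), y.2.1, mv y.2.2 j (c * y.2.1))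

/-- exchange of `U` and `V` -/
def sw (y : AV n) : AV n := (y.2.1, y.1, y.2.2)

/-- the flows `El`, `Er` and all their conjugates -/
inductive Fam (H : Fin n → (Fin n → ℂ) → ℂ → ℂ) : (ℂ → AV n → AV n) → Prop
  | l (j : Fin n) : Fam H (El H j)
  | r (j : Fin n) : Fam H (Er H j)
  | cl (j : Fin n) (s : ℂ) (e : ℂ → AV n → AV n) : Fam H e →
      Fam H (fun c y => El H j (-s) (e c (El H j s y)))
  | cr (j : Fin n) (s : ℂ) (e : ℂ → AV n → AV n) : Fam H e →
      Fam H (fun c y => Er H j (-s) (e c (Er H j s y)))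

/-- the family -/
def Fl (H : Fin n → (Fin n → ℂ) → ℂ → ℂ) : Set (ℂ → AV n → AV n) := {e | Fam H e}

/-- good points: the velocities span the tangent space -/
def Gd (F : MvPolynomial (Fin n) ℂ) (H : Fin n → (Fin n → ℂ) → ℂ → ℂ) (y : AV n) : Prop :=
  LinearMap.ker (fderiv ℝ (Pq F) y).toLinearMap ≤ spn (Fl H) y

end defs

/-! ### C1: the equation and the flows -/

/-- HPL.  PROOF.  Existence of `H` with `sm`, `eq`, `zero` for one `j`: induction on `F` (`MvPolynomial.induction_on`).  `F = C a`: `H = 0`.  `F = p + q`: sum.  `F = p * X i`: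
`H z w = H^p z w * (z i + if i = j then w else 0) + (if i = j then eval z p else 0)`; `pderiv j (p * X i) = pderiv j p * X i + p * (if i = j then 1 else 0)`; `z ↦ eval z p` is smooth over `ℝ`
(also by induction, or as a polynomial function).  `sym`: by `eq` at `z` and at `mv z j w` (note `mv (mv z j w) j (-w) = z`): `w * H j (mv z j w) (-w) = w * H j z w`, which gives the claim for `w ≠ 0`;
for `w = 0` both sides are `H j z 0`. -/
def StHPL : Prop := ∀ (n : ℕ) (F : MvPolynomial (Fin n) ℂ),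
  ∃ H : Fin n → (Fin n → ℂ) → ℂ → ℂ, HH F H

/-- DER.  PROOF.  `z ↦ eval z F` is smooth over `ℝ` with the derivative `ζ ↦ ∑ j, dj F z j * ζ j`: induction on `F` (`MvPolynomial.induction_on`: constants, sums, `p * X i`; product rule
`HasFDerivAt.mul`).  Then the product rule for `U V`. -/
def StDER : Prop := ∀ (n : ℕ) (F : MvPolynomial (Fin n) ℂ), ContDiff ℝ ∞ (Pq F) ∧
  ∀ y ξ : AV n, fderiv ℝ (Pq F) y ξ =
    y.1 * ξ.2.1 + y.2.1 * ξ.1 - ∑ j, dj F y.2.2 j * ξ.2.2 j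

/-- FLO.  PROOF (for `El`; the same for `Er`).  Smooth: `HH.sm`.  `c = 0`: clear.  Inverse: with `w = c U` the composition has the second coordinate
`V + c H j z w - c H j (mv z j w) (-w) = V` (`HH.sym`; `(-c) * U = -w`) and the third coordinate `mv (mv z j w) j (-w) = z`.  `Pq (El c y) = U (V + c H j z w) - F(z + w e_j) = U V + w H j z w - F(z) - w H j z w = Pq y`
(`HH.eq`).  Velocity: derivative of `c ↦ (U, V + c H j z (c U), z + single j (c U))` at `c = 0` (`HasFDerivAt`, product rule: `c' * H j z 0 + 0`), `HH.zero`. -/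
def StFLO : Prop := ∀ (n : ℕ) (F : MvPolynomial (Fin n) ℂ) (H : Fin n → (Fin n → ℂ) → ℂ → ℂ),
  HH F H → ∀ j : Fin n,
  (ContDiff ℝ ∞ (fun q : ℂ × AV n => El H j q.1 q.2) ∧ (∀ y, El H j 0 y = y) ∧
    (∀ c y, El H j (-c) (El H j c y) = y) ∧ (∀ c y, Pq F (El H j c y) = Pq F y) ∧
    ∀ y c, vel (El H j) y c = (0, c * dj F y.2.2 j, Pi.single j (c * y.1))) ∧
  (ContDiff ℝ ∞ (fun q : ℂ × AV n => Er H j q.1 q.2) ∧ (∀ y, Er H j 0 y = y) ∧
    (∀ c y, Er H j (-c) (Er H j c y) = y) ∧ (∀ c y, Pq F (Er H j c y) = Pq F y) ∧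
    ∀ y c, vel (Er H j) y c = (c * dj F y.2.2 j, 0, Pi.single j (c * y.2.1)))

/-- FAM.  Uses `StFLO`.  PROOF.  Induction on `Fam`.  `El`, `Er`: FLO.  Conjugates `e' c y = El (-s) (e c (El s y))`: smooth; `e' 0 y = El (-s) (El s y) = y`; `e' (-c) (e' c y) = y` because
`El s (El (-s) x) = x` (FLO (3) with `-s`); `Pq (e' c y) = Pq y`. -/
def StFAM : Prop := ∀ (n : ℕ) (F : MvPolynomial (Fin n) ℂ) (H : Fin n → (Fin n → ℂ) → ℂ → ℂ),
  HH F H → ∀ e, Fam H e → Flw (YC F) e ∧ ∀ c y, Pq F (e c y) = Pq F y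

/-! ### C2: the velocities span the tangent spaces -/

/-- TRA (transport of good points).  Uses `StFLO`, `StFAM`, `StDER`.

PROOF.  (1) Let `θ = El H j s`, `θ' = El H j (-s)`, `y' = θ y` good, `ξ` in the kernel of `D(Pq) y`.  `Pq ∘ θ = Pq` gives `D(Pq) y' (Dθ y ξ) = D(Pq) y ξ = 0`, so `Dθ y ξ ∈ spn (Fl H) y'`, and
`ξ = Dθ' y' (Dθ y ξ)` (`θ' ∘ θ = id`) is in the image of `spn (Fl H) y'` under the linear map `Dθ' y'` (`Submodule.map_span_le`, or `Submodule.span_induction`).  For `e ∈ Fl H` the function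
`e' c x = θ' (e c (θ x))` is in `Fl H`, and `Dθ' y' (vel e y' c) = vel e' y c` (chain rule at `c = 0`: `e 0 y' = y'`, FAM).  (2) The same for `Er`.  (3) `sw`: `Pq (sw y) = Pq y`; `Fam H e` implies
`Fam H (fun c x => sw (e c (sw x)))` (induction: `sw (El H j c (sw x)) = Er H j c x`, `sw (Er H j c (sw x)) = El H j c x` and
`sw (El (-s) (e c (El s (sw x)))) = Er (-s) (sw (e c (sw (Er s x))))`), then as in (1) with `θ = θ' = sw`. -/
def StTRA : Prop := ∀ (n : ℕ) (F : MvPolynomial (Fin n) ℂ) (H : Fin n → (Fin n → ℂ) → ℂ → ℂ),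
  HH F H → (∀ j s y, Gd F H (El H j s y) → Gd F H y) ∧ (∀ j s y, Gd F H (Er H j s y) → Gd F H y) ∧
  ∀ y, Gd F H (sw y) → Gd F H y

/-- GDU.  Uses `StFLO`, `StDER`.

PROOF.  `y = (U, V, z)`, `ξ = (u, v, ζ)` in the kernel of `D(Pq) y`.  `ξ' = ξ - vel (Er H l) y (u / F_l)` has the first coordinate `0` and is in the kernel (by DER: the velocity
`(c F_l, 0, c V e_l)` is: `V c F_l - F_l c V = 0`).  `ξ' = (0, v', ζ')`.  `ξ'' = ξ' - ∑ j, vel (El H j) y (ζ' j / U) = (0, v'', 0)` is in the kernel (`(0, c F_j, c U e_j)` is: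
`U c F_j - F_j c U = 0`), so `U v'' = 0`, `v'' = 0`.  So `ξ` is a sum of velocities. -/
def StGDU : Prop := ∀ (n : ℕ) (F : MvPolynomial (Fin n) ℂ) (H : Fin n → (Fin n → ℂ) → ℂ → ℂ),
  HH F H → ∀ (y : AV n) (l : Fin n), y.1 ≠ 0 → dj F y.2.2 l ≠ 0 → Gd F H y

/-- GEN (all points of `YC F` are good).  Uses `StGDU`, `StTRA`, `StFLO`.

PROOF.  (1) All `y` with `y.1 ≠ 0` are good: let `zs, l` with `dj F zs l ≠ 0` (`Smt.ncst`).  Induction on the finite set `S ⊆ Fin n`: if `y.1 ≠ 0` and `y.2.2 j = zs j` for all `j ∉ S`, then `y` is good.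
`S = ∅`: `y.2.2 = zs`, GDU.  `S = insert j S'`: `y' = El H j ((zs j - y.2.2 j) / y.1) y` has `y'.1 = y.1`, `y'.2.2 j = zs j` and the other coordinates `y'.2.2 i = y.2.2 i`, so `y'` is good, so `y` is (TRA).
(2) `y.2.1 ≠ 0`: `sw y` is good by (1), TRA (3).  (3) `y.1 = y.2.1 = 0`, `y ∈ YC F`: `eval z F = 0`, so there is `l` with `dj F z l ≠ 0` (`Smt.reg`).  `y' = Er H l 1 y = (H l z 0, 0, z)` has
`y'.1 = dj F z l ≠ 0`, so it is good by (1), so `y` is (TRA (2)). -/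
def StGEN : Prop := ∀ (n : ℕ) (F : MvPolynomial (Fin n) ℂ) (H : Fin n → (Fin n → ℂ) → ℂ → ℂ),
  Smt F → HH F H → ∀ y ∈ YC F, Gd F H y

/-- SMO.  Uses `StDER`.  PROOF.  Closed: `Pq F` is continuous.  Surjective: `c = D(Pq) y ξ` with `ξ = (0, c / U, 0)` if `U ≠ 0`, `ξ = (c / V, 0, 0)` if `V ≠ 0`, and if `U = V = 0` then
`eval z F = 0`, `dj F z l ≠ 0` for some `l` and `ξ = (0, 0, - c / F_l e_l)`. -/
def StSMO : Prop := ∀ (n : ℕ) (F : MvPolynomial (Fin n) ℂ), Smt F →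
  IsClosed (YC F) ∧ ∀ y ∈ YC F, Function.Surjective (fderiv ℝ (Pq F) y)

/-! ### C3: the explicit cell -/

/-- DSK (the disc is diffeomorphic to the plane).

PROOF.  `OpenPartialHomeomorph.univBall (0 : ℂ) (1/2)` with `contDiff_univBall`, `contDiffOn_univBall_symm`; or directly
`α a = a / (2 √(1 + ‖a‖²))`, `β b = 2 b / √(1 - 4 ‖b‖²)`. -/
def StDSK : Prop := ∃ α β : ℂ → ℂ, ContDiff ℝ ∞ α ∧ (∀ a, ‖α a‖ < 1 / 2) ∧
  ContDiffOn ℝ ∞ β (ball 0 (1 / 2)) ∧ (∀ a, β (α a) = a) ∧ ∀ b, ‖b‖ < 1 / 2 → α (β b) = b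

/-- CEL.  Uses `StDSK`, `StDER` (smoothness of `z ↦ eval z F`).

PROOF.  `e0 ((a, z), w) = ((1 + α a, eval z F / (1 + α a), z), w)`; `1 + α a ≠ 0` because `‖α a‖ < 1/2`; smooth.  The map `ρ ((U, V, z), w) = ((β (U - 1), z), w)` is smooth on the open set
`{‖U - 1‖ < 1/2}`, which contains the range of `e0`, and `ρ ∘ e0 = id`; so the derivatives of `e0` are injective (chain rule) and `e0` is an embedding (`e0` is continuous, `ρ` is continuous on the range: for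
instance the codomain restriction of `e0` to the open set has a continuous left inverse).  Range: if `UV = F(z)`, `‖U - 1‖ < 1/2`, then `e0 ((β (U - 1), z), w) = ((U, F(z)/U, z), w) = ((U, V, z), w)`.  It is
`(YC F ×ˢ univ) ∩ O` with `O = {‖U - 1‖ < 1/2}`. -/
def StCEL : Prop := ∀ (n : ℕ) (F : MvPolynomial (Fin n) ℂ),
  ∃ e0 : (ℂ × (Fin n → ℂ)) × AV n → AV n × AV n, OE (YC F ×ˢ (univ : Set (AV n))) e0 ∧
    range e0 = (YC F ∩ {y | ‖y.1 - 1‖ < 1 / 2}) ×ˢ (univ : Set (AV n))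

/-! ### C4: assembly -/

/-- target of helper65: local retractions -/
def TRET : Prop := ∀ (V : Type) [NormedAddCommGroup V] [NormedSpace ℝ V] [FiniteDimensional ℝ V]
  (P : V → ℂ), ContDiff ℝ ∞ P → (∀ x, P x = 0 → Function.Surjective (fderiv ℝ P x)) →
  Ret {x | P x = 0}

/-- target of helper65: homotopies are realised by words -/
def THOM : Prop := ∀ (V : Type) [NormedAddCommGroup V] [NormedSpace ℝ V] [FiniteDimensional ℝ V]
  (P : V → ℂ) (𝓕 : Set (ℂ → V → V)), ContDiff ℝ ∞ P →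
  (∀ x, P x = 0 → Function.Surjective (fderiv ℝ P x)) → (∀ e ∈ 𝓕, Flw {x | P x = 0} e) →
  (∀ y, P y = 0 → LinearMap.ker (fderiv ℝ P y).toLinearMap ≤ spn 𝓕 y) → Hmt 𝓕 {x | P x = 0}

/-- target of helper65: approximation -/
def TAPX : Prop := ∀ (V : Type) [NormedAddCommGroup V] [NormedSpace ℝ V] [FiniteDimensional ℝ V]
  (Y : Set V) (𝓕 : Set (ℂ → V → V)), (∀ e ∈ 𝓕, Flw Y e) → Apx 𝓕 Y

/-- SUS.  Uses `TRET`, `THOM`, `TAPX`, `StHPL`, `StDER`, `StFAM`, `StGEN`, `StSMO`, `StCEL`, `StEXH`, `StMUN`.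

PROOF.  `H` from HPL, `𝓕 = Fl H`, `U0 = {y | ‖y.1 - 1‖ < 1/2}` (open), `y₀ = (1, eval 0 F, 0) ∈ YC F ∩ U0`.  CEL: `e0`.  EXH gives `Exh E (YC F ×ˢ univ)`, MUN with the closed set `YC F ×ˢ univ` gives `g`. -/
def StSUS : Prop := ∀ (n : ℕ) (F : MvPolynomial (Fin n) ℂ), Smt F → WC (YC F) →
  ∃ g : (ℂ × (Fin n → ℂ)) × AV n → AV n × AV n, OE (YC F ×ˢ (univ : Set (AV n))) g ∧
    range g = YC F ×ˢ (univ : Set (AV n))

end Pool.Agent.Helper87.FX
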