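import Pool.Agent.Helper87.FX.StC

set_option autoImplicit false

namespace Pool.Agent.Helper87.FX

open Set Topology Metric Filter
open scoped ContDiff

theorem hFAM : StFLO → StFAM := by
  intro hFLO n F H hH e he
  have key : ∀ e, Fam H e → (ContDiff ℝ ∞ (fun z : ℂ × AV n => e z.1 z.2) ∧ (∀ x, e 0 x = x) ∧
      (∀ c x, e (-c) (e c x) = x) ∧ ∀ c y, Pq F (e c y) = Pq F y) := by
    intro e he
    induction he with
    | l j =>
      obtain ⟨⟨h1, h2, h3, h4, _⟩, _⟩ := hFLO n F H hH j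
      exact ⟨h1, h2, h3, h4⟩
    | r j =>
      obtain ⟨_, ⟨h1, h2, h3, h4, _⟩⟩ := hFLO n F H hH j
      exact ⟨h1, h2, h3, h4⟩
    | cl j s e _ ih =>
      obtain ⟨⟨h1, h2, h3, h4, _⟩, _⟩ := hFLO n F H hH j
      obtain ⟨g1, g2, g3, g4⟩ := ih
      have h3' : ∀ x, El H j s (El H j (-s) x) = x := by
        intro x; have := h3 (-s) x; rwa [neg_neg] at this
      have hs : ∀ t : ℂ, ContDiff ℝ ∞ (El H j t) := fun t =>
        h1.comp (contDiff_const.prodMk contDiff_id)
      refine ⟨?_, fun x => by simp only [g2, h3], fun c x => by simp only [h3', g3, h3],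
        fun c y => by simp only [h4, g4]⟩
      exact (hs (-s)).comp (g1.comp (contDiff_fst.prodMk ((hs s).comp contDiff_snd)))
    | cr j s e _ ih =>
      obtain ⟨_, ⟨h1, h2, h3, h4, _⟩⟩ := hFLO n F H hH j
      obtain ⟨g1, g2, g3, g4⟩ := ih
      have h3' : ∀ x, Er H j s (Er H j (-s) x) = x := by
        intro x; have := h3 (-s) x; rwa [neg_neg] at this
      have hs : ∀ t : ℂ, ContDiff ℝ ∞ (Er H j t) := fun t =>
        h1.comp (contDiff_const.prodMk contDiff_id)
      refine ⟨?_, fun x => by simp only [g2, h3], fun c x => by simp only [h3', g3, h3],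
        fun c y => by simp only [h4, g4]⟩
      exact (hs (-s)).comp (g1.comp (contDiff_fst.prodMk ((hs s).comp contDiff_snd)))
  obtain ⟨k1, k2, k3, k4⟩ := key e he
  refine ⟨⟨k1, k2, k3, fun c x hx => ?_⟩, k4⟩
  show Pq F (e c x) = 0
  rw [k4]; exact hx

end Pool.Agent.Helper87.FX
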