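import Pool.Agent.Helper87.FX.StA

set_option autoImplicit false

namespace Pool.Agent.Helper87.FX

open Set Topology Metric Filter
open scoped ContDiff

theorem hMUN : StEXS → StLIM → StMUN := by
  intro hEXS hLIM E V _ _ _ _ _ _ X hX hE
  have : ProperSpace V := FiniteDimensional.proper_real V
  obtain ⟨g0, hg0, -⟩ := hE ∅ isCompact_empty (empty_subset _)
  let K : ℕ → Set V := fun n => X ∩ closedBall 0 n
  have hKc : ∀ n, IsCompact (K n) := fun n => (isCompact_closedBall 0 _).inter_left hX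
  have step : ∀ (n : ℕ) (p : {p : (E → V) × ℝ // OE X p.1 ∧ 1 ≤ p.2}),
      ∃ q : {p : (E → V) × ℝ // OE X p.1 ∧ 1 ≤ p.2}, p.1.2 + 1 ≤ q.1.2 ∧
        (∀ x ∈ closedBall (0 : E) p.1.2, q.1.1 x = p.1.1 x) ∧ K n ⊆ q.1.1 '' ball 0 q.1.2 := by
    intro n p
    obtain ⟨g', r', h1, h2, h3, h4⟩ := hEXS E V X hE p.1.1 p.1.2 (K n) (by linarith [p.2.2]) p.2.1
      (hKc n) inter_subset_left
    exact ⟨⟨(g', r'), h1, by linarith [p.2.2]⟩, h2, h3, h4⟩
  choose nx hn1 hn2 hn3 using step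
  let s : ℕ → {p : (E → V) × ℝ // OE X p.1 ∧ 1 ≤ p.2} :=
    fun n => Nat.rec ⟨(g0, 1), hg0, le_refl 1⟩ (fun n p => nx n p) n
  have hs : ∀ n, s (n + 1) = nx n (s n) := fun n => rfl
  refine hLIM E V X K (fun n => (s n).1.1) (fun n => (s n).1.2) (fun n => inter_subset_left) ?_
    (fun n => (s n).2.1) (s 0).2.2 (fun n => ?_) (fun n => ?_) (fun n => ?_)
  · intro x hx
    obtain ⟨n, hn⟩ := exists_nat_ge ‖x‖
    exact mem_iUnion.mpr ⟨n, hx, by simpa using hn⟩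
  · show (s n).1.2 + 1 ≤ (s (n + 1)).1.2
    rw [hs]; exact hn1 n (s n)
  · show ∀ x ∈ closedBall (0 : E) (s n).1.2, (s (n + 1)).1.1 x = (s n).1.1 x
    rw [hs]; exact hn2 n (s n)
  · show K n ⊆ (s (n + 1)).1.1 '' ball 0 (s (n + 1)).1.2
    rw [hs]; exact hn3 n (s n)

end Pool.Agent.Helper87.FX
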