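import Pool.Agent.Helper65.FX.St

set_option autoImplicit false

namespace Pool.Agent.Helper87.FX

open Set Topology Metric Filter
open scoped ContDiff
open Pool.Agent.Helper65.FX

theorem hNRM : StNRM := by
  intro V _ _ _ P B y₀ hP hB hn
  have hne : (∞ : WithTop ℕ∞) ≠ 0 := by simp
  have dP : Differentiable ℝ P := hP.differentiable hne
  have cdP : Continuous (fderiv ℝ P) := hP.continuous_fderiv (by simp)
  let Q : V × V × ℂ → ℂ →L[ℝ] ℂ := fun z =>
    (fderiv ℝ P (z.2.1 + B z.1 z.2.2)).comp (B z.1) - ContinuousLinearMap.id ℝ ℂ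
  have hQ : Continuous Q := by
    refine Continuous.sub (Continuous.clm_comp (cdP.comp ?_) (hB.comp continuous_fst)) continuous_const
    exact (continuous_fst.comp continuous_snd).add
      ((hB.comp continuous_fst).clm_apply (continuous_snd.comp continuous_snd))
  have h0 : ‖Q (y₀, y₀, 0)‖ < 1 / 2 := by
    simpa [Q] using hn
  have hop : IsOpen {z | ‖Q z‖ < 1 / 2} := isOpen_lt hQ.norm continuous_const
  obtain ⟨ρ, hρ, hb⟩ := Metric.isOpen_iff.mp hop (y₀, y₀, 0) h0
  filter_upwards [ball_mem_nhds (y₀, y₀, (0 : ℂ)) hρ] with z hz hPz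
  obtain ⟨y, w, σ⟩ := z
  simp only [Metric.mem_ball, Prod.dist_eq, max_lt_iff, dist_zero_right] at hz
  obtain ⟨hy, hw, hσ⟩ := hz
  have hd : ∀ τ ∈ ball (0 : ℂ) ρ, DifferentiableAt ℝ (fun τ => P (w + B y τ) - τ) τ := by
    intro τ _
    exact ((dP _).comp τ (by fun_prop)).sub differentiableAt_id
  have hdb : ∀ τ ∈ ball (0 : ℂ) ρ, ‖fderiv ℝ (fun τ => P (w + B y τ) - τ) τ‖ ≤ 1 / 2 := by
    intro τ hτ
    have hf : HasFDerivAt (fun τ => P (w + B y τ) - τ)
        ((fderiv ℝ P (w + B y τ)).comp (B y) - ContinuousLinearMap.id ℝ ℂ) τ := by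
      refine HasFDerivAt.sub ?_ (hasFDerivAt_id τ)
      refine (dP _).hasFDerivAt.comp τ ?_
      exact (B y).hasFDerivAt.const_add w
    rw [hf.fderiv]
    have : (y, w, τ) ∈ ball (y₀, y₀, (0 : ℂ)) ρ := by
      simp only [Metric.mem_ball, Prod.dist_eq, max_lt_iff, dist_zero_right]
      exact ⟨hy, hw, by simpa using hτ⟩
    exact (hb this).le
  have hlip := (convex_ball (0 : ℂ) ρ).norm_image_sub_le_of_norm_fderiv_le hd hdb
    (mem_ball_self hρ) (by simpa using hσ : σ ∈ ball (0 : ℂ) ρ)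
  have hPz' : P (w + B y σ) = P w := hPz
  simp only [map_zero, add_zero, sub_zero, hPz'] at hlip
  have h1 : ‖σ‖ ≤ 1 / 2 * ‖σ‖ := by
    have h2 : P w - σ - P w = -σ := by ring
    rw [h2, norm_neg] at hlip
    exact hlip
  have h3 : ‖σ‖ = 0 := by nlinarith [norm_nonneg σ]
  exact norm_eq_zero.mp h3

end Pool.Agent.Helper87.FX
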