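import Pool.Agent.Helper87.FX.StA

set_option autoImplicit false

namespace Pool.Agent.Helper87.FX

open Set Topology Metric Filter
open scoped ContDiff

theorem hSCL : StSCL := by
  intro E _ _ _ φ R hR hφ h0
  classical
  refine ⟨fun s x => if s = 0 then fderiv ℝ φ 0 x else s⁻¹ • φ (s • x), ?_, ?_, ?_⟩
  · intro s hs
    by_cases hs0 : s = 0
    · subst hs0
      simp only [if_true]
      refine ⟨⟨?_, ?_, ?_⟩, by simp, ?_⟩
      · exact (fderiv ℝ φ 0).contDiff.contDiffOn
      · exact (hφ.imm 0 (by simpa using hR)).injOn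
      · intro x hx
        have : fderiv ℝ (fun x => fderiv ℝ φ 0 x) x = fderiv ℝ φ 0 :=
          (fderiv ℝ φ 0).hasFDerivAt.fderiv
        rw [this]
        exact hφ.imm 0 (by simpa using hR)
      · intro x hx
        have : fderiv ℝ (fun x => fderiv ℝ φ 0 x) x = fderiv ℝ φ 0 :=
          (fderiv ℝ φ 0).hasFDerivAt.fderiv
        rw [this, zero_smul]
    · have hmem : ∀ x ∈ ball (0 : E) R, s • x ∈ ball (0 : E) R := by
        intro x hx
        rw [mem_ball_zero_iff] at hx ⊢
        rw [norm_smul, Real.norm_of_nonneg hs.1]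
        nlinarith [norm_nonneg x, hs.2, hs.1]
      have hder : ∀ x ∈ ball (0 : E) R,
          fderiv ℝ (fun x => s⁻¹ • φ (s • x)) x = fderiv ℝ φ (s • x) := by
        intro x hx
        have h1 : HasFDerivAt φ (fderiv ℝ φ (s • x)) (s • x) :=
          ((hφ.sm.contDiffAt (isOpen_ball.mem_nhds (hmem x hx))).differentiableAt
            (by simp)).hasFDerivAt
        have h2 : HasFDerivAt (fun x : E => s • x) (s • ContinuousLinearMap.id ℝ E) x :=
          (hasFDerivAt_id x).const_smul s
        have h3 := (h1.comp x h2).const_smul s⁻¹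
        have h4 : fderiv ℝ (fun x => s⁻¹ • φ (s • x)) x =
            s⁻¹ • (fderiv ℝ φ (s • x)).comp (s • ContinuousLinearMap.id ℝ E) := h3.fderiv
        rw [h4]
        ext v
        simp [smul_smul, inv_mul_cancel₀ hs0]
      simp only [if_neg hs0]
      refine ⟨⟨?_, ?_, ?_⟩, by simp [h0], hder⟩
      · refine ContDiffOn.const_smul _ (hφ.sm.comp (contDiff_const_smul s).contDiffOn ?_)
        intro x hx; exact hmem x hx
      · intro x hx y hy hxy
        have h1 : φ (s • x) = φ (s • y) := by
          have := congrArg (fun z => s • z) hxy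
          simpa [smul_smul, mul_inv_cancel₀ hs0] using this
        have h2 := hφ.inj (hmem x hx) (hmem y hy) h1
        exact smul_right_injective E hs0 h2
      · intro x hx
        rw [hder x hx]
        exact hφ.imm _ (hmem x hx)
  · intro x; simp
  · intro x; simp

end Pool.Agent.Helper87.FX
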