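import Pool.Agent.Helper87.FX.StC

set_option autoImplicit false

namespace Pool.Agent.Helper87.FX

open Set Topology Metric Filter
open scoped ContDiff

theorem tra_aux {n : ℕ} (F : MvPolynomial (Fin n) ℂ) (H : Fin n → (Fin n → ℂ) → ℂ → ℂ)
    (hP : Differentiable ℝ (Pq F)) (hfam : ∀ e, Fam H e → Flw (YC F) e)
    (θ θ' : AV n → AV n) (hθ : ContDiff ℝ ∞ θ) (hθ' : ContDiff ℝ ∞ θ')
    (hl : ∀ x, θ' (θ x) = x) (hPθ : ∀ x, Pq F (θ x) = Pq F x)
    (hcj : ∀ e, Fam H e → Fam H (fun c x => θ' (e c (θ x)))) (y : AV n) (hG : Gd F H (θ y)) :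
    Gd F H y := by
  have hne : (∞ : WithTop ℕ∞) ≠ 0 := by simp
  have dθ : Differentiable ℝ θ := hθ.differentiable hne
  have dθ' : Differentiable ℝ θ' := hθ'.differentiable hne
  intro ξ hξ
  have hξ' : fderiv ℝ (Pq F) y ξ = 0 := hξ
  have h1 : fderiv ℝ (Pq F) (θ y) (fderiv ℝ θ y ξ) = 0 := by
    have h2 : fderiv ℝ (fun x => Pq F (θ x)) y = (fderiv ℝ (Pq F) (θ y)).comp (fderiv ℝ θ y) :=
      fderiv_comp y (hP _) (dθ _)
    have h3 : (fun x => Pq F (θ x)) = Pq F := funext hPθ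
    rw [h3] at h2
    rw [← hξ', h2]; rfl
  have h4 : fderiv ℝ θ y ξ ∈ spn (Fl H) (θ y) := hG (LinearMap.mem_ker.mpr h1)
  have h5 : ∀ v ∈ spn (Fl H) (θ y), fderiv ℝ θ' (θ y) v ∈ spn (Fl H) y := by
    intro v hv
    refine Submodule.span_induction (p := fun v _ => fderiv ℝ θ' (θ y) v ∈ spn (Fl H) y)
      ?_ ?_ ?_ ?_ hv
    · intro v hv
      obtain ⟨e, he, c, rfl⟩ := mem_iUnion₂.mp hv
      have hfl := hfam e he
      have de : DifferentiableAt ℝ (fun c => e c (θ y)) 0 := by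
        have := hfl.sm.comp (contDiff_id.prodMk contDiff_const : ContDiff ℝ ∞ (fun c : ℂ => (c, θ y)))
        exact (this.differentiable hne) 0
      have h6 : vel (fun c x => θ' (e c (θ x))) y = (fderiv ℝ θ' (θ y)).comp (vel e (θ y)) := by
        have h7 := fderiv_comp (𝕜 := ℝ) (0 : ℂ) (g := θ') (f := fun c => e c (θ y)) (dθ' _) de
        have h8 : e 0 (θ y) = θ y := hfl.zero _
        rw [h8] at h7
        exact h7
      have h9 : fderiv ℝ θ' (θ y) (vel e (θ y) c) = vel (fun c x => θ' (e c (θ x))) y c := by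
        rw [h6]; rfl
      rw [h9]
      exact Submodule.subset_span (mem_iUnion₂.mpr ⟨_, hcj e he, c, rfl⟩)
    · simp
    · intro a b _ _ ha hb
      rw [map_add]; exact Submodule.add_mem _ ha hb
    · intro r a _ ha
      rw [map_smul]; exact Submodule.smul_mem _ r ha
  have h10 : fderiv ℝ θ' (θ y) (fderiv ℝ θ y ξ) = ξ := by
    have h2 : fderiv ℝ (fun x => θ' (θ x)) y = (fderiv ℝ θ' (θ y)).comp (fderiv ℝ θ y) :=
      fderiv_comp y (dθ' _) (dθ _)
    have h3 : (fun x => θ' (θ x)) = id := funext hl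
    rw [h3, fderiv_id] at h2
    have := congrArg (fun L => L ξ) h2
    simpa using this.symm
  rw [← h10]
  exact h5 _ h4

theorem sw_fam {n : ℕ} (H : Fin n → (Fin n → ℂ) → ℂ → ℂ) (e : ℂ → AV n → AV n) (he : Fam H e) :
    Fam H (fun c x => sw (e c (sw x))) := by
  induction he with
  | l j => exact Fam.r j
  | r j => exact Fam.l j
  | cl j s e _ ih =>
    have := Fam.cr j s _ ih
    exact this
  | cr j s e _ ih =>
    have := Fam.cl j s _ ih
    exact this

theorem hTRA : StFLO → StFAM → StDER → StTRA := by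
  intro hFLO hFAM hDER n F H hH
  have hP : Differentiable ℝ (Pq F) := (hDER n F).1.differentiable (by simp)
  have hfam : ∀ e, Fam H e → Flw (YC F) e := fun e he => (hFAM n F H hH e he).1
  have hsl : ∀ (j : Fin n) (s : ℂ), ContDiff ℝ ∞ (El H j s) := by
    intro j s
    exact (hFLO n F H hH j).1.1.comp (contDiff_const.prodMk contDiff_id)
  have hsr : ∀ (j : Fin n) (s : ℂ), ContDiff ℝ ∞ (Er H j s) := by
    intro j s
    exact (hFLO n F H hH j).2.1.comp (contDiff_const.prodMk contDiff_id)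
  refine ⟨fun j s y hy => ?_, fun j s y hy => ?_, fun y hy => ?_⟩
  · exact tra_aux F H hP hfam (El H j s) (El H j (-s)) (hsl j s) (hsl j (-s))
      ((hFLO n F H hH j).1.2.2.1 s) ((hFLO n F H hH j).1.2.2.2.1 s)
      (fun e he => Fam.cl j s e he) y hy
  · exact tra_aux F H hP hfam (Er H j s) (Er H j (-s)) (hsr j s) (hsr j (-s))
      ((hFLO n F H hH j).2.2.2.1 s) ((hFLO n F H hH j).2.2.2.2.1 s)
      (fun e he => Fam.cr j s e he) y hy
  · have hsw : ContDiff ℝ ∞ (sw : AV n → AV n) := by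
      unfold sw
      exact (contDiff_fst.comp contDiff_snd).prodMk
        (contDiff_fst.prodMk (contDiff_snd.comp contDiff_snd))
    refine tra_aux F H hP hfam sw sw hsw hsw (fun x => rfl) (fun x => ?_)
      (fun e he => sw_fam H e he) y hy
    show x.2.1 * x.1 - _ = x.1 * x.2.1 - _
    rw [mul_comm]; rfl

end Pool.Agent.Helper87.FX
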