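import Pool.Agent.Helper87.FX.StD
import Pool.Agent.Helper65.FX.Tgt
import Pool.Agent.Helper61.FX.M_LIP
import Pool.Agent.Helper36.FX.M_CMP
import Pool.Agent.Helper38.FX.M_STP
import Pool.Agent.Helper87.FX.M_SCL
import Pool.Agent.Helper42.FX.M_DSC
import Pool.Agent.Helper70.FX.M_OEC
import Pool.Agent.Helper32.FX.M_TRN
import Pool.Agent.Helper29.FX.M_EXS
import Pool.Agent.Helper95.FX.M_LIM
import Pool.Agent.Helper87.FX.M_MUN
import Pool.Agent.Helper42.FX.M_KEY
import Pool.Agent.Helper80.FX.M_PRM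
import Pool.Agent.Helper97.FX.M_CEX
import Pool.Agent.Helper43.FX.M_GRX
import Pool.Agent.Helper89.FX.M_GRD
import Pool.Agent.Helper61.FX.M_NUL
import Pool.Agent.Helper71.FX.M_AMB
import Pool.Agent.Helper76.FX.M_PSH
import Pool.Agent.Helper24.FX.M_EXH
import Pool.Agent.Helper42.FX.M_HPL
import Pool.Agent.Helper75.FX.M_DER
import Pool.Agent.Helper78.FX.M_FLO
import Pool.Agent.Helper87.FX.M_FAM
import Pool.Agent.Helper87.FX.M_TRA
import Pool.Agent.Helper80.FX.M_GDU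
import Pool.Agent.Helper53.FX.M_GEN
import Pool.Agent.Helper1.FX.M_SMO
import Pool.Agent.Helper60.FX.M_DSK
import Pool.Agent.Helper36.FX.M_CEL
import Pool.Agent.Helper16.FX.M_SUS
import Pool.Agent.Helper45.FX.M_PRE
import Pool.Agent.Helper38.FX.M_BRG
import Pool.Agent.Helper34.FX.M_FIN
import Pool.Agent.Helper16.FX.M_SEL
import Pool.Agent.Helper33.FX.M_UCT
import Pool.Agent.Helper25.FX.M_SLV
import Pool.Agent.Helper14.FX.M_RET
import Pool.Agent.Helper64.FX.M_VEL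
import Pool.Agent.Helper62.FX.M_WDS
import Pool.Agent.Helper4.FX.M_ENU
import Pool.Agent.Helper34.FX.M_LOC
import Pool.Agent.Helper86.FX.M_UNI
import Pool.Agent.Helper87.FX.M_NRM
import Pool.Agent.Helper36.FX.M_RWD
import Pool.Agent.Helper18.FX.M_HOM
import Pool.Agent.Helper10.FX.M_SMA
import Pool.Agent.Helper58.FX.M_APX

/-!
# Project FX (MP_3bffab_ag), chapter S: the theorem
-/

set_option autoImplicit false

namespace Pool.Agent.Helper87.FX

theorem all_SLV : Pool.Agent.Helper65.FX.StSLV :=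
  Pool.Agent.Helper25.FX.hSLV Pool.Agent.Helper33.FX.hUCT

theorem all_RET : TRET :=
  Pool.Agent.Helper65.FX.tret_of (Pool.Agent.Helper14.FX.hRET all_SLV Pool.Agent.Helper16.FX.hSEL)

theorem all_HOM : THOM :=
  Pool.Agent.Helper65.FX.thom_of (Pool.Agent.Helper18.FX.hHOM
    (Pool.Agent.Helper86.FX.hUNI
      (Pool.Agent.Helper34.FX.hLOC Pool.Agent.Helper64.FX.hVEL Pool.Agent.Helper4.FX.hENU)
      Pool.Agent.Helper4.FX.hENU)
    (Pool.Agent.Helper65.FX.hCLO all_SLV Pool.Agent.Helper16.FX.hSEL Pool.Agent.Helper64.FX.hVEL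
      Pool.Agent.Helper62.FX.hWDS hNRM)
    Pool.Agent.Helper36.FX.hRWD)

theorem all_APX : TAPX :=
  Pool.Agent.Helper65.FX.tapx_of (Pool.Agent.Helper58.FX.hAPX Pool.Agent.Helper10.FX.hSMA)

theorem all_MUN : StMUN :=
  hMUN (Pool.Agent.Helper29.FX.hEXS
    (Pool.Agent.Helper42.FX.hDSC Pool.Agent.Helper36.FX.hCMP
      (Pool.Agent.Helper38.FX.hSTP Pool.Agent.Helper61.FX.hLIP) hSCL)
    (Pool.Agent.Helper70.FX.hOEC Pool.Agent.Helper36.FX.hCMP) Pool.Agent.Helper32.FX.hTRN)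
    Pool.Agent.Helper95.FX.hLIM

theorem all_EXH : StEXH :=
  Pool.Agent.Helper24.FX.hEXH
    (Pool.Agent.Helper61.FX.hNUL (Pool.Agent.Helper89.FX.hGRD
      (Pool.Agent.Helper43.FX.hGRX
        (Pool.Agent.Helper97.FX.hCEX Pool.Agent.Helper80.FX.hPRM Pool.Agent.Helper42.FX.hKEY)
        Pool.Agent.Helper42.FX.hKEY)
      Pool.Agent.Helper42.FX.hKEY))
    (Pool.Agent.Helper76.FX.hPSH Pool.Agent.Helper71.FX.hAMB)

theorem all_FAM : StFAM := hFAM Pool.Agent.Helper78.FX.hFLO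

theorem all_GEN : StGEN :=
  Pool.Agent.Helper53.FX.hGEN
    (Pool.Agent.Helper80.FX.hGDU Pool.Agent.Helper78.FX.hFLO Pool.Agent.Helper75.FX.hDER)
    (hTRA Pool.Agent.Helper78.FX.hFLO all_FAM Pool.Agent.Helper75.FX.hDER)
    Pool.Agent.Helper78.FX.hFLO

theorem all_SUS : StSUS :=
  Pool.Agent.Helper16.FX.hSUS all_RET all_HOM all_APX Pool.Agent.Helper42.FX.hHPL
    Pool.Agent.Helper75.FX.hDER all_FAM all_GEN
    (Pool.Agent.Helper1.FX.hSMO Pool.Agent.Helper75.FX.hDER)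
    (Pool.Agent.Helper36.FX.hCEL Pool.Agent.Helper60.FX.hDSK Pool.Agent.Helper75.FX.hDER)
    all_EXH all_MUN

/-- chapter S: a weakly contractible smooth suspension `UV = F` becomes diffeomorphic to an affine space
after multiplication with its ambient space -/
theorem tgtS : Pool.Agent.Helper72.FX.TgtS :=
  Pool.Agent.Helper34.FX.hFIN all_SUS Pool.Agent.Helper38.FX.hBRG Pool.Agent.Helper45.FX.hPRE
    Pool.Agent.Helper71.FX.hAMB

end Pool.Agent.Helper87.FX
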