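import Mathlib

/-!
# Project FX (MP_3bffab_ag), chapter S: from weakly contractible to diffeomorphic to an affine space.  Definitions

All spaces are finite dimensional real normed spaces (`Fin m → ℂ` is regarded as a real normed space).
-/

set_option autoImplicit false

namespace Pool.Agent.Helper87.FX

open Set Topology Metric
open scoped ContDiff

section general

variable {E V : Type} [NormedAddCommGroup E] [NormedSpace ℝ E] [NormedAddCommGroup V]
  [NormedSpace ℝ V]

/-- diffeomorphisms of `E` (for `E` finite dimensional the inverse is smooth) -/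
structure Dif (θ : E → E) : Prop where
  sm : ContDiff ℝ ∞ θ
  bij : Function.Bijective θ
  imm : ∀ x, Function.Injective (fderiv ℝ θ x)

/-- open cells: `e` is a smooth embedding of `E` into `V`, whose range is a relatively open subset
of `X` -/
structure OE (X : Set V) (e : E → V) : Prop where
  sm : ContDiff ℝ ∞ e
  imm : ∀ x, Function.Injective (fderiv ℝ e x)
  emb : IsEmbedding e
  sub : range e ⊆ X
  opn : ∃ O : Set V, IsOpen O ∧ range e = X ∩ O

/-- smooth open embeddings of the ball of radius `R` into `E` -/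
structure Loc (φ : E → E) (R : ℝ) : Prop where
  sm : ContDiffOn ℝ ∞ φ (ball 0 R)
  inj : InjOn φ (ball 0 R)
  imm : ∀ x ∈ ball (0 : E) R, Function.Injective (fderiv ℝ φ x)

/-- smooth families (parameter: the first variable) of diffeomorphisms of `V` preserving `Y` -/
structure Par (Y : Set V) (G : V → V → V) : Prop where
  sm : ContDiff ℝ ∞ (fun z : V × V => G z.1 z.2)
  pres : ∀ y, ∀ x ∈ Y, G y x ∈ Y
  inv : ∃ H : V → V → V, ContDiff ℝ ∞ (fun z : V × V => H z.1 z.2) ∧
    (∀ y, ∀ x ∈ Y, H y x ∈ Y) ∧ (∀ y x, H y (G y x) = x) ∧ ∀ y x, G y (H y x) = x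

/-- complex flows on `V` preserving `Y` (only `e (-c) = (e c)⁻¹` is needed) -/
structure Flw (Y : Set V) (e : ℂ → V → V) : Prop where
  sm : ContDiff ℝ ∞ (fun z : ℂ × V => e z.1 z.2)
  zero : ∀ x, e 0 x = x
  inv : ∀ c x, e (-c) (e c x) = x
  pres : ∀ c, ∀ x ∈ Y, e c x ∈ Y

/-- the velocity at time `0` at the point `y` -/
noncomputable def vel (e : ℂ → V → V) (y : V) : ℂ →L[ℝ] V := fderiv ℝ (fun c => e c y) 0

/-- all real linear combinations of velocities of flows of the family at `y` -/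
def spn (𝓕 : Set (ℂ → V → V)) (y : V) : Submodule ℝ V :=
  Submodule.span ℝ (⋃ e ∈ 𝓕, range (vel e y))

/-- words: `wd N e c x = e_{N-1}(c_{N-1}, ... e_1(c_1, e_0(c_0, x)))` -/
def wd : (N : ℕ) → (Fin N → ℂ → V → V) → (Fin N → ℂ) → V → V
  | 0, _, _, x => x
  | N + 1, e, c, x => wd N (fun k => e k.succ) (fun k => c k.succ) (e 0 (c 0) x)

/-- maps of `L` realised by words with continuous parameters -/
inductive Rch (𝓕 : Set (ℂ → V → V)) (L : Set V) : (V → V) → Prop
  | base (u : V → V) : EqOn u id L → Rch 𝓕 L u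
  | step (u u' : V → V) (f : V → ℂ) (e : ℂ → V → V) : Rch 𝓕 L u → e ∈ 𝓕 → ContinuousOn f L →
      EqOn u' (fun x => e (f x) (u x)) L → Rch 𝓕 L u'

/-- a local solver at `y₀`: points `p, q` of `Y` near `y₀` are joined by a word with parameters `b p q`,
continuous in `p, q`, with `b p p = 0` -/
def Slv (𝓕 : Set (ℂ → V → V)) (Y : Set V) (y₀ : V) : Prop :=
  ∃ (N : ℕ) (e : Fin N → ℂ → V → V) (O : Set V) (b : V → V → Fin N → ℂ), (∀ k, e k ∈ 𝓕) ∧
    IsOpen O ∧ y₀ ∈ O ∧ ContinuousOn (fun z : V × V => b z.1 z.2) ((Y ∩ O) ×ˢ (Y ∩ O)) ∧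
    (∀ p ∈ Y ∩ O, b p p = 0) ∧ ∀ p ∈ Y ∩ O, ∀ q ∈ Y ∩ O, wd N e (b p q) p = q

end general

/-- the unit cube -/
def cub (k : ℕ) : Set (Fin k → ℝ) := Icc 0 1

/-- its boundary -/
def bdc (k : ℕ) : Set (Fin k → ℝ) := {x | x ∈ cub k ∧ ∃ i, x i = 0 ∨ x i = 1}

/-- weakly contractible: every map from the boundary of a cube extends to the cube (`k = 0`: `Y` is not
empty) -/
def WC {V : Type} [TopologicalSpace V] (Y : Set V) : Prop :=
  ∀ (k : ℕ) (v : (Fin k → ℝ) → V), ContinuousOn v (bdc k) → MapsTo v (bdc k) Y →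
    ∃ w : (Fin k → ℝ) → V, ContinuousOn w (cub k) ∧ MapsTo w (cub k) Y ∧ EqOn w v (bdc k)

/-! ### the suspension `Y = {x₀ x₁ = F(x₂, x₃, ...)}` -/

section susp

variable {k : ℕ}

/-- the last `k` coordinates -/
def zz (x : Fin (k + 2) → ℂ) : Fin k → ℂ := fun i => x i.succ.succ

/-- the point `(U, V, z)` -/
def pt (U V : ℂ) (z : Fin k → ℂ) : Fin (k + 2) → ℂ := Fin.cons U (Fin.cons V z)

/-- the value of the equation `UV - F(z)` -/
noncomputable def Pv (F : MvPolynomial (Fin k) ℂ) (x : Fin (k + 2) → ℂ) : ℂ :=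
  x 0 * x 1 - MvPolynomial.eval (zz x) F

/-- the suspension -/
def Ys (F : MvPolynomial (Fin k) ℂ) : Set (Fin (k + 2) → ℂ) := {x | Pv F x = 0}

/-- `F` has no critical zeros (so that `Ys F` is smooth) and is not constant -/
structure Smt (F : MvPolynomial (Fin k) ℂ) : Prop where
  reg : ∀ z : Fin k → ℂ, MvPolynomial.eval z F = 0 →
    ∃ j, MvPolynomial.eval z (MvPolynomial.pderiv j F) ≠ 0
  ncst : ∃ (z : Fin k → ℂ) (j : Fin k), MvPolynomial.eval z (MvPolynomial.pderiv j F) ≠ 0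

end susp

end Pool.Agent.Helper87.FX
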