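import Pool.Agent.Helper87.FX.Defs

/-!
# Project FX (MP_3bffab_ag), chapter S, part A: disc theorem and monotone unions.  Statements with proofs

Every module proves `theorem hXXX : ... → StXXX` (the statements named in the docstring as hypotheses; further statements of
these files may be added as hypotheses).  `B_R = ball 0 R`, `B̄_R = closedBall 0 R`.
-/

set_option autoImplicit false

namespace Pool.Agent.Helper87.FX

open Set Topology Metric Filter
open scoped ContDiff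

/-! ### A1: diffeomorphisms of a vector space -/

/-- LIP.  PROOF.  `w` is Lipschitz with constant `1/2` (mean value inequality, `lipschitzWith_of_nnnorm_fderiv_le`), so `x ↦ x + w x` is injective
(`‖x - y‖ = ‖w x - w y‖ ≤ ½‖x - y‖`) and surjective (for `y` the map `x ↦ y - w x` is a contraction of the complete space `E` and has a fixed
point).  Its derivative is `id + Dw x`, and `v + Dw x v = 0` gives `‖v‖ ≤ ½‖v‖`. -/
def StLIP : Prop := ∀ (E : Type) [NormedAddCommGroup E] [NormedSpace ℝ E] [FiniteDimensional ℝ E]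
  (w : E → E), ContDiff ℝ ∞ w → (∀ x, ‖fderiv ℝ w x‖ ≤ 1 / 2) → Dif (fun x => x + w x)

/-- CMP.  PROOF.  (1) chain rule.  (2), (3) clear.  (4) `θ` has a strict derivative everywhere (`ContDiff.contDiffAt`,
`ContDiffAt.hasStrictFDerivAt`), which is injective, hence bijective (`E` finite dimensional: `LinearEquiv.ofInjectiveEndo` or
`ContinuousLinearEquiv.ofBijective`), so `θ` is an open map (`HasStrictFDerivAt.map_nhds_eq_of_surj` / `.map_nhds_eq_of_equiv`). -/
def StCMP : Prop := ∀ (E : Type) [NormedAddCommGroup E] [NormedSpace ℝ E] [FiniteDimensional ℝ E],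
  (∀ θ ψ : E → E, Dif θ → Dif ψ → Dif (fun x => θ (ψ x))) ∧
  (∀ L : E →L[ℝ] E, Function.Injective L → Dif (fun x => L x)) ∧
  (∀ (θ : E → E) (v : E), Dif θ → Dif (fun x => θ x + v)) ∧
  (∀ θ : E → E, Dif θ → IsHomeomorph θ)

/-- STP (one small step).  Uses `StLIP`.

PROOF.  `Δ x = b x - a x`: `‖DΔ x‖ ≤ η` on `B̄_R`, `Δ 0 = 0`, so `‖Δ x‖ ≤ η R` on `B̄_R` (mean value inequality on the convex set `B̄_R`; `B̄_R ⊆ B_{R0}` where everything
is differentiable).  `a` is open and injective on `B_{R0}` (invertible strict derivative), so `a '' B_{R0}` is open.  Define `w y = β x • Δ x` if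
`y = a x`, `x ∈ B_{R0}` (such an `x` is unique), and `w y = 0` for `y ∉ a '' B_{R0}`.  `w` is smooth: on the open set `a '' B_{R0}` it is `(β • Δ) ∘ a⁻¹`, where
`a⁻¹` is smooth (inverse function theorem: `ContDiffAt.toOpenPartialHomeomorph`, `ContDiffAt.to_localInverse`, or
`OpenPartialHomeomorph.contDiffAt_symm`), and it is `0` on the complement of the compact set `a '' B̄_R` (`β = 0` outside `B_R`); the two open sets
cover `E`.  For `y = a x`, `x ∈ B̄_R`: `Dw y = D(β • Δ) x ∘ (Da x)⁻¹` and `‖D(β•Δ) x‖ ≤ |β x| η + C η R ≤ (1 + C R) η ≤ m/2`, `‖(Da x)⁻¹‖ ≤ 1/m`; for all other `y`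
`Dw y = 0` (`w = 0` near `y` or `y = a x` with `x ∈ B_{R0} \ B̄_R`).  So `‖Dw‖ ≤ 1/2` and `ψ y = y + w y` is a `Dif` by LIP.  For `x ∈ B̄_r`: `ψ (a x) = a x + 1 • (b x - a x) = b x`. -/
def StSTP : Prop := ∀ (E : Type) [NormedAddCommGroup E] [NormedSpace ℝ E] [FiniteDimensional ℝ E]
  (a b : E → E) (β : E → ℝ) (r R R0 m η C : ℝ), 0 < r → r < R → R < R0 → 0 < m →
  Loc a R0 → ContDiffOn ℝ ∞ b (ball 0 R0) → ContDiff ℝ ∞ β → (∀ x ∈ closedBall (0 : E) r, β x = 1) →
  (∀ x, x ∉ ball (0 : E) R → β x = 0) → (∀ x, |β x| ≤ 1) → (∀ x, ‖fderiv ℝ β x‖ ≤ C) →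
  (∀ x ∈ closedBall (0 : E) R, ∀ v, m * ‖v‖ ≤ ‖fderiv ℝ a x v‖) → a 0 = b 0 →
  (∀ x ∈ closedBall (0 : E) R, ‖fderiv ℝ b x - fderiv ℝ a x‖ ≤ η) → (1 + C * R) * η ≤ m / 2 →
  ∃ ψ : E → E, Dif ψ ∧ ∀ x ∈ closedBall (0 : E) r, ψ (a x) = b x

/-- SCL (Alexander's rescaling).

PROOF.  `a s x = s⁻¹ • φ (s • x)` for `0 < s`, `a 0 x = Dφ(0) x` (`if s = 0 then .. else ..`).  For `0 < s ≤ 1` and `x ∈ B_R`: `s • x ∈ B_R`, chain rule
`D(a s) x = Dφ(s x)`. -/
def StSCL : Prop := ∀ (E : Type) [NormedAddCommGroup E] [NormedSpace ℝ E] [FiniteDimensional ℝ E]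
  (φ : E → E) (R : ℝ), 0 < R → Loc φ R → φ 0 = 0 →
  ∃ a : ℝ → E → E, (∀ s ∈ Icc (0 : ℝ) 1, Loc (a s) R ∧ a s 0 = 0 ∧
    ∀ x ∈ ball (0 : E) R, fderiv ℝ (a s) x = fderiv ℝ φ (s • x)) ∧
  (∀ x, a 1 x = φ x) ∧ ∀ x, a 0 x = fderiv ℝ φ 0 x

/-- DSC (disc theorem).  Uses `StCMP`, `StSTP`, `StSCL`.

PROOF.  It is enough to treat `φ 0 = 0` (apply this case to `φ - φ 0` and add the constant: CMP (3)).  `R = (r + R0)/2`.  `β` a `ContDiffBump` at `0` with `rIn = r`,
`rOut = R`; its derivative is bounded by some `C` (continuous with compact support).  `Dφ` is continuous on the compact ball `B̄_R`, injective at each point, so there is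
`m > 0` with `m‖v‖ ≤ ‖Dφ(x) v‖` for `x ∈ B̄_R`, `v ∈ E` (minimum of `‖Dφ(x) v‖` over `B̄_R ×` unit sphere; if `E` is trivial everything is clear, `m = 1`).
Let `η = m/(2(1 + C R))` and `δ > 0` with `‖Dφ(x) - Dφ(x')‖ ≤ η` for `x, x' ∈ B̄_R`, `‖x - x'‖ ≤ δ` (uniform continuity on a compact set).  SCL: `a s`.  Let `N R ≥ ...`: choose
`N : ℕ` with `R/N ≤ δ`, `s_k = k/N`.  For `x ∈ B̄_R`, `s ∈ [0,1]`: `s x ∈ B̄_R`, so `a (s_k)`, `a (s_{k+1})` satisfy the hypotheses of STP (`D(a s) x = Dφ(s x)`).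
Induction on `k ≤ N`: there is a `Dif θ_k` with `θ_k = a (s_k)` on `B̄_r`: `θ_0 = Dφ(0)` (CMP (2)), `θ_{k+1} = ψ ∘ θ_k` (CMP (1)).  `θ = θ_N`, `a 1 = φ`. -/
def StDSC : Prop := ∀ (E : Type) [NormedAddCommGroup E] [NormedSpace ℝ E] [FiniteDimensional ℝ E]
  (φ : E → E) (r R0 : ℝ), 0 < r → r < R0 → Loc φ R0 →
  ∃ θ : E → E, Dif θ ∧ ∀ x ∈ closedBall (0 : E) r, θ x = φ x

/-! ### A2: monotone unions of open cells -/

/-- OEC.  Uses `StCMP`.  PROOF.  Chain rule; `θ` is a homeomorphism (CMP (4)), so the composition is an embedding with the same range. -/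
def StOEC : Prop := ∀ (E V : Type) [NormedAddCommGroup E] [NormedSpace ℝ E] [FiniteDimensional ℝ E]
  [NormedAddCommGroup V] [NormedSpace ℝ V] [FiniteDimensional ℝ V] (X : Set V) (e : E → V)
  (θ : E → E), OE X e → Dif θ → OE X (fun x => e (θ x)) ∧ range (fun x => e (θ x)) = range e

/-- TRN (transition maps).

PROOF.  For `x ∈ B_R` let `φ x` be the unique point with `e (φ x) = g x` (`e` is injective), `φ x = 0` outside.  `φ` is continuous on `B_R` (`e` is an embedding: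
`IsEmbedding.continuousOn_iff` or `IsInducing`).  SMOOTHNESS at `x₀ ∈ B_R`, `z₀ = φ x₀`: let `A : V →L[ℝ] E` be a left inverse of the injective map `De(z₀)`
(finite dimension: `LinearMap.exists_leftInverse_of_injective`, `LinearMap.toContinuousLinearMap`).  `A ∘ e : E → E` has the derivative `id` at `z₀`, so by the inverse
function theorem it has a local inverse `ρ`, smooth near `A (e z₀)`, with `ρ (A (e z)) = z` for `z` near `z₀`.  For `x` near `x₀`: `φ x` is near `z₀` (continuity), so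
`φ x = ρ (A (e (φ x))) = ρ (A (g x))`: smooth.  Injective: `g` is.  `Dg x = De(φ x) ∘ Dφ x` is injective, so `Dφ x` is. -/
def StTRN : Prop := ∀ (E V : Type) [NormedAddCommGroup E] [NormedSpace ℝ E] [FiniteDimensional ℝ E]
  [NormedAddCommGroup V] [NormedSpace ℝ V] [FiniteDimensional ℝ V] (X : Set V) (e g : E → V)
  (R : ℝ), OE X e → OE X g → g '' ball 0 R ⊆ range e →
  ∃ φ : E → E, Loc φ R ∧ ∀ x ∈ ball (0 : E) R, e (φ x) = g x

/-- the exhaustion property -/
def Exh (E : Type) {V : Type} [NormedAddCommGroup E] [NormedSpace ℝ E] [NormedAddCommGroup V]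
    [NormedSpace ℝ V] (X : Set V) : Prop :=
  ∀ K : Set V, IsCompact K → K ⊆ X → ∃ e : E → V, OE X e ∧ K ⊆ range e

/-- EXS (one step of the exhaustion).  Uses `StDSC`, `StOEC`, `StTRN`.

PROOF.  `K' = K ∪ g '' B̄_{r+1}` is compact and contained in `X`; `Exh`: `e` with `K' ⊆ range e`.  TRN with `R = r + 1`: `φ`, `Loc φ (r+1)`, `e (φ x) = g x`.  DSC: `θ = φ` on
`B̄_r`.  `g' = e ∘ θ` (OEC).  On `B̄_r`: `g' x = e (φ x) = g x`.  `K ⊆ range e = range g'` is compact and `g'` is an embedding, so `g'⁻¹(K)` is compact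
(`IsEmbedding.isCompact_preimage'` or: it is the image of `K` under the continuous inverse), hence contained in some ball `B_{r'}`, `r' ≥ r + 1`. -/
def StEXS : Prop := ∀ (E V : Type) [NormedAddCommGroup E] [NormedSpace ℝ E] [FiniteDimensional ℝ E]
  [NormedAddCommGroup V] [NormedSpace ℝ V] [FiniteDimensional ℝ V] (X : Set V), Exh E X →
  ∀ (g : E → V) (r : ℝ) (K : Set V), 0 < r → OE X g → IsCompact K → K ⊆ X →
  ∃ (g' : E → V) (r' : ℝ), OE X g' ∧ r + 1 ≤ r' ∧ (∀ x ∈ closedBall (0 : E) r, g' x = g x) ∧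
    K ⊆ g' '' ball 0 r'

/-- LIM (the limit).

PROOF.  `r n ≥ n + 1` (induction, `r 0 ≥ 1`).  For `m ≤ n`: `g n = g m` on `B̄_{r m}` (induction).  `G x = g n x` for any `n` with `‖x‖ < r n` (say the smallest one, or
`n = ⌈‖x‖⌉₊`); so `G = g n` on `B_{r n}`.  Smooth and immersive: locally equal to `g n` (`Filter.EventuallyEq.fderiv_eq`, `contDiff_iff_contDiffAt`).  Injective: two points
lie in a common ball.  `range G = ⋃ g n '' B_{r n} = X` (`K n ⊆ g (n+1) '' B_{r (n+1)}`, `⋃ K n = X`).  Open onto `X`: for `U` open, `G '' U = ⋃ g n '' (U ∩ B_{r n})`, and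
`g n '' (U ∩ B_{r n})` is relatively open in `range (g n)` (embedding), which is relatively open in `X`; so it is `X ∩ O` with `O` open (for an embedding
`g n '' W = range (g n) ∩ O'`).  A continuous injective `G` with `G '' U = range G ∩ O` for every open `U` is an embedding. -/
def StLIM : Prop := ∀ (E V : Type) [NormedAddCommGroup E] [NormedSpace ℝ E] [FiniteDimensional ℝ E]
  [NormedAddCommGroup V] [NormedSpace ℝ V] [FiniteDimensional ℝ V] (X : Set V) (K : ℕ → Set V)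
  (g : ℕ → E → V) (r : ℕ → ℝ), (∀ n, K n ⊆ X) → X ⊆ ⋃ n, K n → (∀ n, OE X (g n)) → 1 ≤ r 0 →
  (∀ n, r n + 1 ≤ r (n + 1)) → (∀ n, ∀ x ∈ closedBall (0 : E) (r n), g (n + 1) x = g n x) →
  (∀ n, K n ⊆ g (n + 1) '' ball 0 (r (n + 1))) →
  ∃ G : E → V, OE X G ∧ range G = X

/-- MUN (monotone union).  Uses `StEXS`, `StLIM`.

PROOF.  `K n = X ∩ closedBall 0 n` is compact (`X` closed, `V` finite dimensional, hence proper).  Start: `Exh` with `K = ∅` gives `g 0`; `r 0 = 1`.  EXS with `K n` gives `g (n+1), r (n+1)`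
(recursion on the sequence of pairs, `choose` / `exists_seq`).  LIM. -/
def StMUN : Prop := ∀ (E V : Type) [NormedAddCommGroup E] [NormedSpace ℝ E] [FiniteDimensional ℝ E]
  [NormedAddCommGroup V] [NormedSpace ℝ V] [FiniteDimensional ℝ V] (X : Set V), IsClosed X →
  Exh E X → ∃ G : E → V, OE X G ∧ range G = X

end Pool.Agent.Helper87.FX
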