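import Pool.Agent.Helper87.FX.StA

/-!
# Project FX (MP_3bffab_ag), chapter S, part B: extension of maps over grids, null homotopies, the graph trick

Every module proves `theorem hXXX : ... → StXXX` (the statements named in the docstring as hypotheses; further statements of
these files may be added as hypotheses).
-/

set_option autoImplicit false

namespace Pool.Agent.Helper87.FX

open Set Topology Metric Filter
open scoped ContDiff

/-! ### B1: the integer grid of `Fin d → ℝ`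

The cells of the grid `ℤ^d` are indexed by keys `c : Fin d → ℤ`: the even number `2a` stands for the point `a`, the odd number `2a + 1` for
the interval `[a, a + 1]`.  The open cell of the key `c` is `{x | ky x = c}`. -/

/-- the key of the open cell containing `x` -/
noncomputable def ky {d : ℕ} (x : Fin d → ℝ) : Fin d → ℤ := fun i => ⌊x i⌋ + ⌈x i⌉

/-- the closed cell of the key `c` -/
def cell {d : ℕ} (c : Fin d → ℤ) : Set (Fin d → ℝ) :=
  {x | ∀ i, ((c i / 2 : ℤ) : ℝ) ≤ x i ∧ x i ≤ (((c i + 1) / 2 : ℤ) : ℝ)}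

/-- the dimension of the cell -/
def dm {d : ℕ} (c : Fin d → ℤ) : ℕ := (Finset.univ.filter fun i => c i % 2 = 1).card

/-- unions of open cells -/
def Sat {d : ℕ} (S : Set (Fin d → ℝ)) : Prop := ∀ x y, ky x = ky y → x ∈ S → y ∈ S

/-- the cube `[-M, M]^d` -/
def bx (d M : ℕ) : Set (Fin d → ℝ) := {x | ∀ i, |x i| ≤ M}

/-- KEY.  PROOF.  `⌊t⌋ = (⌊t⌋ + ⌈t⌉) / 2` and `⌈t⌉ = (⌊t⌋ + ⌈t⌉ + 1) / 2` (integer division): either `t` is an integer, `⌊t⌋ = ⌈t⌉`, or `⌈t⌉ = ⌊t⌋ + 1`.  So (*) `x ∈ cell c` iff for all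
`i`: `c i / 2 ≤ ky x i / 2` and `(ky x i + 1) / 2 ≤ (c i + 1) / 2` (`Int.le_floor`, `Int.ceil_le`).  (1) `IsClosed`: finite intersection of closed sets.  (2) (*) with `c = ky x`.
(3) (*).  (4) By (*) for `x ∈ cell c` : if `c i` is even, `ky x i = c i`; if `c i` is odd, `|ky x i - c i| ≤ 1`.  So the odd entries of `ky x` are odd entries of `c`, and if
the numbers of odd entries are the same, `ky x = c` (`omega` for every `i`; `Finset.card_lt_card`).  (5) (*) for `y` and the key `ky x`, and for `x` and the key `c`. -/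
def StKEY : Prop := ∀ (d : ℕ),
  (∀ c : Fin d → ℤ, IsClosed (cell c)) ∧
  (∀ x : Fin d → ℝ, x ∈ cell (ky x)) ∧
  (∀ c : Fin d → ℤ, Sat (cell c)) ∧
  (∀ (c : Fin d → ℤ) (x : Fin d → ℝ), x ∈ cell c → ky x ≠ c → dm (ky x) < dm c) ∧
  (∀ (c : Fin d → ℤ) (x y : Fin d → ℝ), x ∈ cell c → y ∈ cell (ky x) → y ∈ cell c)

/-- PRM (parametrization of a cell by the unit cube of its dimension).

PROOF.  Let `J = {i | c i % 2 = 1}`, `ε : Fin (dm c) ≃ J` (`Finset.orderIsoOfFin` or `Finset.equivFin`).  `φ t i = c i / 2 + t (ε.symm i)` for `i ∈ J`, `φ t i = c i / 2` for `i ∉ J`;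
`ψ x k = x (ε k) - c (ε k) / 2`.  Both are continuous; `ψ (φ t) = t`; `φ (ψ x) = x` for `x ∈ cell c` (for `i ∉ J`: `x i = c i / 2`).  `t ∈ cub ↔ φ t ∈ cell c` (for `i ∈ J`: `(c i + 1)/2 = c i / 2 + 1`).
For `t ∈ cub`: `ky (φ t) = c` iff `0 < t k < 1` for all `k`, i.e. iff `t ∉ bdc`. -/
def StPRM : Prop := ∀ (d : ℕ) (c : Fin d → ℤ), ∃ (φ : (Fin (dm c) → ℝ) → Fin d → ℝ)
  (ψ : (Fin d → ℝ) → Fin (dm c) → ℝ), Continuous φ ∧ Continuous ψ ∧
  (∀ t ∈ cub (dm c), φ t ∈ cell c) ∧ (∀ x ∈ cell c, ψ x ∈ cub (dm c)) ∧ (∀ x ∈ cell c, φ (ψ x) = x) ∧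
  (∀ t ∈ bdc (dm c), ky (φ t) ≠ c) ∧ ∀ x ∈ cell c, ky x ≠ c → ψ x ∈ bdc (dm c)

/-- CEX (extension over one cell).  Uses `StPRM`, `StKEY`.

PROOF.  PRM: `φ, ψ`.  `v = f ∘ φ` is continuous on `bdc (dm c)` (`φ` maps it into `S`) with values in `Y`; `WC`: `w` on `cub (dm c)`.  `f' x = f x` for `x ∈ S`, `f' x = w (ψ x)` for `x ∉ S`
(`Classical`).  For `x ∈ cell c ∩ S` we have `ky x ≠ c`, so `ψ x ∈ bdc`, `w (ψ x) = f (φ (ψ x)) = f x`: so `f' = w ∘ ψ` on `cell c`.  `f'` is continuous on the closed sets `S`, `cell c`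
(`ContinuousOn.union_of_isClosed`). -/
def StCEX : Prop := ∀ (V : Type) [TopologicalSpace V] (Y : Set V), WC Y →
  ∀ (d : ℕ) (c : Fin d → ℤ) (S : Set (Fin d → ℝ)) (f : (Fin d → ℝ) → V), IsClosed S →
  (∀ x ∈ S, ky x ≠ c) → (∀ x ∈ cell c, ky x ≠ c → x ∈ S) → ContinuousOn f S → MapsTo f S Y →
  ∃ f' : (Fin d → ℝ) → V, ContinuousOn f' (S ∪ cell c) ∧ MapsTo f' (S ∪ cell c) Y ∧ EqOn f' f S

/-- GRX (extension over all cells of a big cube).  Uses `StCEX`, `StKEY`.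

PROOF.  Let `D = {c | ∀ i, -2M ≤ c i ≤ 2M}` (a finite set, `Set.finite_Icc`).  For `x ∈ bx d M` we have `ky x ∈ D`, and `cell c ⊆ bx d M` for `c ∈ D`.  Strong
induction on the number of elements of `D_S = {c ∈ D | ∀ x ∈ S, ky x ≠ c}` (for all `S, f`).  If `D_S` is empty, then `bx d M ⊆ S` (for `x ∈ bx d M` there is `x' ∈ S` with
`ky x' = ky x`, and `S` is saturated), take `f' = f`.  Otherwise let `c ∈ D_S` with `dm c` minimal.  For `x ∈ cell c`, `ky x ≠ c`: `dm (ky x) < dm c` (KEY (4)), `ky x ∈ D`, so `ky x ∉ D_S` and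
`x ∈ S` by saturation.  CEX: `f'` on `S' = S ∪ cell c`, which is closed and saturated (KEY (1), (3)); `D_{S'} ⊆ D_S \ {c}` (the cell `c` is not empty and contains a point of key `c`: the point with the
coordinates `c i / 2` (real division)).  Induction. -/
def StGRX : Prop := ∀ (V : Type) [TopologicalSpace V] (Y : Set V), WC Y →
  ∀ (d M : ℕ) (S : Set (Fin d → ℝ)) (f : (Fin d → ℝ) → V), IsClosed S → Sat S →
  ContinuousOn f S → MapsTo f S Y →
  ∃ f' : (Fin d → ℝ) → V, ContinuousOn f' (S ∪ bx d M) ∧ MapsTo f' (S ∪ bx d M) Y ∧ EqOn f' f S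

/-- GRD (extension to the whole space).  Uses `StGRX`, `StKEY`.

PROOF.  There is `δ > 0` with `thickening δ A ⊆ O` (`IsCompact.exists_thickening_subset_open`).  Let `n : ℕ`, `n ≥ 1`, `1 / n < δ`, and `M : ℕ` with `n • A ⊆ bx d M` (`A` is bounded).  Let `T` be the set of all keys `c` with
`-2M - 1 ≤ c i ≤ 2M + 1` for all `i` such that `cell c` meets `n • A`; it is finite.  `S = ⋃ c ∈ T, cell c` is closed and saturated.  `n • A ⊆ S` (`x ∈ cell (ky x)`, KEY (2); `|x i| ≤ M` gives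
`|ky x i| ≤ 2M`).  For `x ∈ S`, `x, n a ∈ cell c`, `a ∈ A`: `|x i - n a i| ≤ 1`, so `dist (x/n) a ≤ 1/n < δ` and `x/n ∈ O`.  So `f x = r (n⁻¹ • x)` is continuous on `S` with values in `Y`.  GRX: `f'`.
`R x = f' (κ (n • x))`, where `κ y i = max (-M) (min M (y i))` is continuous with values in `bx d M` and the identity on `bx d M`. -/
def StGRD : Prop := ∀ (V : Type) [TopologicalSpace V] (Y : Set V), WC Y →
  ∀ (d : ℕ) (A O : Set (Fin d → ℝ)) (r : (Fin d → ℝ) → V), IsCompact A → IsOpen O → A ⊆ O →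
  ContinuousOn r O → MapsTo r O Y →
  ∃ R : (Fin d → ℝ) → V, Continuous R ∧ (∀ x, R x ∈ Y) ∧ EqOn R r A

/-- the local retraction property -/
def Ret {V : Type} [TopologicalSpace V] (Y : Set V) : Prop :=
  ∀ L : Set V, IsCompact L → L ⊆ Y → ∃ (O : Set V) (r : V → V), IsOpen O ∧ L ⊆ O ∧
    ContinuousOn r O ∧ MapsTo r O Y ∧ EqOn r id L

/-- NUL (null homotopies).  Uses `StGRD`.

PROOF.  `L' = L ∪ {y₀}` is compact; `Ret`: `O, r`.  `κ : V ≃L[ℝ] (Fin d → ℝ)`, `d = finrank ℝ V` (`(Module.finBasis ℝ V).equivFunL` or `ContinuousLinearEquiv.ofFinrankEq`).  GRD with `A = κ '' L'`,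
`O' = κ '' O` (open), `r ∘ κ.symm`: `R`.  `R' = R ∘ κ : V → V` is continuous with values in `Y` and is the identity on `L'`.  `H x t = R' ((1 - t) • x + t • y₀)`. -/
def StNUL : Prop := ∀ (V : Type) [NormedAddCommGroup V] [NormedSpace ℝ V] [FiniteDimensional ℝ V]
  (Y : Set V), WC Y → Ret Y → ∀ (L : Set V) (y₀ : V), IsCompact L → L ⊆ Y → y₀ ∈ Y →
  ∃ H : V → ℝ → V, ContinuousOn (fun z : V × ℝ => H z.1 z.2) (L ×ˢ Icc (0 : ℝ) 1) ∧
    (∀ x ∈ L, ∀ t ∈ Icc (0 : ℝ) 1, H x t ∈ Y) ∧ (∀ x ∈ L, H x 0 = x) ∧ ∀ x ∈ L, H x 1 = y₀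

/-! ### B2: the graph trick -/

/-- AMB (ambient diffeomorphisms act on open cells).

PROOF.  `Ψ ∘ e` is smooth with injective derivative (`Φ ∘ Ψ = id` gives `DΦ ∘ DΨ = id`), an embedding (`Ψ` is a homeomorphism with inverse `Φ`), its range is contained in `X'`, and if
`range e = X ∩ O`, then `range (Ψ ∘ e) = X' ∩ Φ⁻¹(O)`. -/
def StAMB : Prop := ∀ (E V W : Type) [NormedAddCommGroup E] [NormedSpace ℝ E]
  [NormedAddCommGroup V] [NormedSpace ℝ V] [NormedAddCommGroup W] [NormedSpace ℝ W] (X : Set V)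
  (X' : Set W) (e : E → V) (Ψ : V → W) (Φ : W → V), ContDiff ℝ ∞ Ψ → ContDiff ℝ ∞ Φ →
  (∀ v, Φ (Ψ v) = v) → (∀ w, Ψ (Φ w) = w) → (∀ v, v ∈ X ↔ Ψ v ∈ X') → OE X e →
  OE X' (fun x => Ψ (e x))

/-- PSH (graph trick).  Uses `StAMB`.

PROOF.  Let `H` be the inverse family of `G` (`Par.inv`).  For `l > 0` let `Ψ (x, y) = (G (l y + x) x, l y + x)` and `Φ (x', y') = (H y' x', l⁻¹ (y' - H y' x'))`.  Both are smooth, mutually
inverse, and `z ∈ Y ×ˢ univ ↔ Φ z ∈ Y ×ˢ univ`.  The map `(l, x, y) ↦ G (l y + x) x` is continuous and maps `{0} × K` into the open set `U0`, so (compactness of `K`: `generalized_tube_lemma` or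
`IsCompact.eventually_forall_mem`..) there is `l > 0` with `G (l y + x) x ∈ U0` for all `(x, y) ∈ K`.  `e = Φ ∘ e0` is an open cell (AMB), and for `z ∈ K`: `Ψ z ∈ (Y ∩ U0) ×ˢ univ = range e0`, so
`z = Φ (Ψ z) ∈ range e`. -/
def StPSH : Prop := ∀ (E V : Type) [NormedAddCommGroup E] [NormedSpace ℝ E]
  [NormedAddCommGroup V] [NormedSpace ℝ V] (Y U0 : Set V) (e0 : E → V × V) (K : Set (V × V))
  (G : V → V → V), IsOpen U0 → OE (Y ×ˢ (univ : Set V)) e0 →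
  range e0 = (Y ∩ U0) ×ˢ (univ : Set V) → IsCompact K → K ⊆ Y ×ˢ (univ : Set V) → Par Y G →
  (∀ z ∈ K, G z.1 z.1 ∈ U0) →
  ∃ e : E → V × V, OE (Y ×ˢ (univ : Set V)) e ∧ K ⊆ range e

/-- homotopies of the identity of a compact subset of `Y` are realised by words (target of the module HOM) -/
def Hmt {V : Type} [NormedAddCommGroup V] [NormedSpace ℝ V] (𝓕 : Set (ℂ → V → V)) (Y : Set V) : Prop :=
  ∀ (L : Set V) (H : V → ℝ → V), IsCompact L → L ⊆ Y →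
    ContinuousOn (fun z : V × ℝ => H z.1 z.2) (L ×ˢ Icc (0 : ℝ) 1) →
    (∀ x ∈ L, ∀ t ∈ Icc (0 : ℝ) 1, H x t ∈ Y) → (∀ x ∈ L, H x 0 = x) → Rch 𝓕 L (fun x => H x 1)

/-- maps realised by words are approximated by smooth families (target of the module APX) -/
def Apx {V : Type} [NormedAddCommGroup V] [NormedSpace ℝ V] (𝓕 : Set (ℂ → V → V)) (Y : Set V) : Prop :=
  ∀ (L U0 : Set V) (u : V → V), IsCompact L → L ⊆ Y → Rch 𝓕 L u → IsOpen U0 → MapsTo u L U0 →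
    ∃ G : V → V → V, Par Y G ∧ ∀ x ∈ L, G x x ∈ U0

/-- EXH (the exhaustion property of `Y × V`).  Uses `StNUL`, `StPSH`.

PROOF.  `K` compact in `Y ×ˢ univ`, `L = fst '' K`.  NUL: `H` with `H x 0 = x`, `H x 1 = y₀ ∈ U0`.  `Hmt`: `Rch 𝓕 L (H · 1)`.  `Apx`: `G` with `G x x ∈ U0` on `L`.  PSH: `e`. -/
def StEXH : Prop := ∀ (E V : Type) [NormedAddCommGroup E] [NormedSpace ℝ E]
  [NormedAddCommGroup V] [NormedSpace ℝ V] [FiniteDimensional ℝ V] (Y U0 : Set V)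
  (e0 : E → V × V) (𝓕 : Set (ℂ → V → V)) (y₀ : V), WC Y → Ret Y → Hmt 𝓕 Y → Apx 𝓕 Y → IsOpen U0 →
  y₀ ∈ Y → y₀ ∈ U0 → OE (Y ×ˢ (univ : Set V)) e0 → range e0 = (Y ∩ U0) ×ˢ (univ : Set V) →
  Exh E (Y ×ˢ (univ : Set V))

end Pool.Agent.Helper87.FX
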