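import Pool.Agent.Helper87.FX.StC
import Pool.Agent.Helper72.FX.Defs

/-!
# Project FX (MP_3bffab_ag), chapter S, part D: the bridge to `TgtS`

Every module proves `theorem hXXX : ... → StXXX`.
-/

set_option autoImplicit false

namespace Pool.Agent.Helper87.FX

open Set Topology Metric Filter
open scoped ContDiff
open Pool.Agent.Helper72.FX (SmZ YY WCon TgtS)

/-- PRE.  PROOF.  Chain rule; `ι` is a homeomorphism and surjective. -/
def StPRE : Prop := ∀ (E E' V : Type) [NormedAddCommGroup E] [NormedSpace ℝ E]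
  [NormedAddCommGroup E'] [NormedSpace ℝ E'] [NormedAddCommGroup V] [NormedSpace ℝ V]
  (X : Set V) (e : E → V) (ι : E' ≃L[ℝ] E), OE X e →
  OE X (fun x => e (ι x)) ∧ range (fun x => e (ι x)) = range e

/-- the coordinates of a point `(U, V, z)` -/
def co {n : ℕ} (y : AV n) : Fin 2 ⊕ Fin n → ℂ := Sum.elim ![y.1, y.2.1] y.2.2

/-- the point with given coordinates -/
def uc {n : ℕ} (x : Fin 2 ⊕ Fin n → ℂ) : AV n :=
  (x (Sum.inl 0), x (Sum.inl 1), fun j => x (Sum.inr j))

/-- BRG (weak contractibility in the two forms).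

PROOF.  `co`, `uc` are continuous and mutually inverse, `y ∈ YC F ↔ co y ∈ YY F`.  Given `v` on `bdc k`: the map `ℓ x = (x + 1)/2` (coordinatewise) maps `closedBall (0 : Fin k → ℝ) 1` (maximum norm) onto
`cub k` and `sphere 0 1` into `bdc k` (if `‖x‖ = 1` then `k ≥ 1` and some coordinate is `±1`; for `k = 0` the sphere is empty), with the inverse `x ↦ 2x - 1`, which maps `bdc k` into the sphere.  `v' x = co (v (ℓ x))` is continuous on
the sphere with values in `YY F`; `WCon`: `w'` on the closed ball.  `w x = uc (w' (2 x - 1))` for `x ∈ cub k` (and anything else outside: `if h : ... then ... else`;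
`continuousOn_iff_continuous_restrict`). -/
def StBRG : Prop := ∀ (n : ℕ) (F : MvPolynomial (Fin n) ℂ), WCon (YY F) → WC (YC F)

/-- FIN (chapter S).  Uses `StSUS`, `StBRG`, `StPRE`, `StAMB`.

PROOF.  `Smt F`: `reg` is `SmZ F`, `ncst` is `SmZ F` at the given zero.  SUS: `g₀`.  `ι : (Fin (2 n + 3) → ℂ) ≃L[ℝ] (ℂ × (Fin n → ℂ)) × AV n` (equal dimensions, `ContinuousLinearEquiv.ofFinrankEq`; both are
`4 n + 6` over `ℝ`).  `Ψ (y, w) = Sum.elim (co y) (co w)` with the inverse `Φ x = (uc (x ∘ Sum.inl), uc (x ∘ Sum.inr))` (smooth: continuous linear maps, or `contDiff_pi`).  AMB with `X = YC F ×ˢ univ`,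
`X' = {x | (fun i => x (Sum.inl i)) ∈ YY F}`.  `g x = Ψ (g₀ (ι x))`.  Range: `Ψ '' (YC F ×ˢ univ) = X'`. -/
def StFIN : Prop := TgtS

end Pool.Agent.Helper87.FX
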